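import Pool.Agent.Q198.CrownC

set_option autoImplicit false

/-!
# Log-concavity of the f-vectors of the order polytopes of the crown posets

`faceNumber n k` is the number of `k`-dimensional faces of the order polytope of the crown poset
with `2 n` elements, as given by the formula quoted in the problem file, and `fVector n j`,
`0 ≤ j ≤ 2 n + 1`, is the whole f-vector `(1, f_0, ..., f_{2n})`.
-/

open Finset Polynomial

namespace Pool.Agent.Results.MP_00f856_co.LogConcave

/-- The number `N_n(r,s) = (2 n / r) C(r, 2 s) C(n + s - 1, r - 1)`. -/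
def N (n r s : ℕ) : ℚ :=
  2 * n / r * (r.choose (2 * s)) * ((n + s - 1).choose (r - 1))

/-- The binomial coefficient `C(a, r - k)`, which is zero when `k > r`. -/
def binSub (a r k : ℕ) : ℕ := if k ≤ r then a.choose (r - k) else 0

/-- The number of `k`-dimensional faces of the order polytope of the crown poset with `2 n`
elements (formula of the problem file). -/
def faceNumber (n k : ℕ) : ℚ :=
  (if k = 0 then 2 else if k = 1 then 1 else 0) +
    ∑ s ∈ Icc 1 n, ∑ r ∈ Icc (2 * s) (2 * n), N n r s * binSub (2 * s) r k

/-- The f-vector: entry `0` is `f_{-1} = 1`, entry `j + 1` is `f_j`. -/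
def fVector (n j : ℕ) : ℚ := if j = 0 then 1 else faceNumber n (j - 1)

/-- **The f-vector of the order polytope of every crown poset is log-concave.**
The entries `f_{-1}, f_0, ..., f_{2n}` are positive, `f_{2n} = 1`, and `f_k² ≥ f_{k-1} f_{k+1}`.
Moreover the polynomial `∑ f_k x^k - 2 - x` (sum over `k ≥ 0`) equals
`(1 + x)^n ∏_{k < n} (x + 3 - 2 cos (2 π k / n))`, a product of real linear factors. -/
theorem result (n : ℕ) (hn : 1 ≤ n) :
    (∀ j, j ≤ 2 * n + 1 → 0 < fVector n j) ∧ fVector n (2 * n + 1) = 1 ∧
    (∀ j, 0 < j → j ≤ 2 * n → fVector n (j - 1) * fVector n (j + 1) ≤ fVector n j ^ 2) ∧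
    (∑ k ∈ range (2 * n + 1), C ((faceNumber n k : ℚ) : ℝ) * X ^ k : ℝ[X]) =
      2 + X + (1 + X) ^ n *
        ∏ k ∈ range n, (X + C (3 - 2 * Real.cos (2 * Real.pi * k / n))) := by
  have hf : ∀ k, faceNumber n k = Pool.Agent.Q198.Crown.f n k := fun k => rfl
  have h := Pool.Agent.Q198.Crown.main n hn
  have hpos : ∀ k, k ≤ 2 * n → 0 < faceNumber n k := by
    intro k hk
    have h1 : (0 : ℝ) < ((faceNumber n k : ℚ) : ℝ) := by
      rw [hf, Pool.Agent.Q198.Crown.f_eq n k hn, Pool.Agent.Q198.Crown.fr,
        Pool.Agent.Q198.Crown.G_coeff n hn]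
      have h2 : (0 : ℝ) ≤ (if k = 0 then 2 else if k = 1 then 1 else 0) := by
        split_ifs <;> norm_num
      have h3 : (0 : ℝ) < ∑ s ∈ Icc 1 n, (Pool.Agent.Q198.Crown.aN n s : ℝ) *
          ((n + s).choose k : ℝ) := by
        apply Finset.sum_pos'
        · intro s _; positivity
        · refine ⟨n, by simp [hn], ?_⟩
          have h4 : 0 < Pool.Agent.Q198.Crown.aN n n := by
            unfold Pool.Agent.Q198.Crown.aN
            have : 0 < (n + n).choose (2 * n) := Nat.choose_pos (by omega)
            omega
          have h5 : 0 < (n + n).choose k := Nat.choose_pos (by omega)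
          positivity
      linarith
    exact_mod_cast h1
  have htop : faceNumber n (2 * n) = 1 := by
    have h1 : ((faceNumber n (2 * n) : ℚ) : ℝ) = 1 := by
      rw [hf, Pool.Agent.Q198.Crown.f_eq n _ hn, Pool.Agent.Q198.Crown.fr,
        Pool.Agent.Q198.Crown.G_coeff n hn, if_neg (by omega), if_neg (by omega), zero_add,
        Finset.sum_eq_single n]
      · have h4 : Pool.Agent.Q198.Crown.aN n n = 1 := by
          unfold Pool.Agent.Q198.Crown.aN
          rw [show n + n = 2 * n by ring, Nat.choose_self,
            Nat.choose_eq_zero_of_lt (show 2 * n - 1 < 2 * n by omega)]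
        rw [h4, show n + n = 2 * n by ring, Nat.choose_self]
        norm_num
      · intro s hs hsn
        rw [mem_Icc] at hs
        rw [Nat.choose_eq_zero_of_lt (show n + s < 2 * n by omega)]
        simp
      · intro hc
        exact absurd (by simp [hn]) hc
    exact_mod_cast h1
  refine ⟨?_, ?_, ?_, ?_⟩
  · rintro (_ | j) hj
    · simp [fVector]
    · have := hpos j (by omega)
      simpa [fVector] using this
  · simpa [fVector] using htop
  · rintro (_ | _ | j) hj0 hj
    · omega
    · have := h.1
      simpa [fVector, hf] using this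
    · have := h.2 j
      simpa [fVector, hf] using this
  · have hG : Pool.Agent.Q198.Crown.G n = (1 + X) ^ n *
        ∏ k ∈ range n, (X + C (3 - 2 * Real.cos (2 * Real.pi * k / n))) := by
      rw [Pool.Agent.Q198.Crown.G, mul_comm, C_1, add_comm X 1]
    rw [← hG]
    ext k
    rw [finsetSum_coeff]
    have h2 : (2 : ℝ[X]) = C 2 := (map_ofNat C 2).symm
    have hr : (2 + X + Pool.Agent.Q198.Crown.G n).coeff k = Pool.Agent.Q198.Crown.fr n k := by
      rw [coeff_add, coeff_add, h2, coeff_C, coeff_X, Pool.Agent.Q198.Crown.fr]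
      congr 1
      rcases k with _ | _ | k
      · simp
      · simp
      · simp
    rw [hr]
    by_cases hk : k < 2 * n + 1
    · rw [Finset.sum_eq_single k]
      · rw [coeff_C_mul, coeff_X_pow, if_pos rfl, mul_one, hf,
          Pool.Agent.Q198.Crown.f_eq n k hn]
      · intro j _ hj
        rw [coeff_C_mul, coeff_X_pow, if_neg (Ne.symm hj), mul_zero]
      · intro hc
        exact absurd (mem_range.2 hk) hc
    · rw [Finset.sum_eq_zero]
      · rw [Pool.Agent.Q198.Crown.fr, Pool.Agent.Q198.Crown.G_coeff n hn, if_neg (by omega),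
          if_neg (by omega), zero_add, Finset.sum_eq_zero]
        intro s hs
        rw [mem_Icc] at hs
        rw [Nat.choose_eq_zero_of_lt (show n + s < k by omega)]
        simp
      · intro j hj
        rw [mem_range] at hj
        rw [coeff_C_mul, coeff_X_pow, if_neg (by omega), mul_zero]

end Pool.Agent.Results.MP_00f856_co.LogConcave
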